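import Pool.Agent.H176R2.R5.MR

/-!
# Generic rigidity in three dimensions of graphs whose `4`-core has maximum degree at most five
-/

set_option autoImplicit false

namespace Pool.Agent.Results.MP_37c7bf_co.CoreDegreeFive

open H176R2.R5

open Pool.Agent.H283R2

/-- Let `G` be a finite graph such that every induced subgraph of minimum degree at least four has
maximum degree at most five, and let `H` be any maximal `(3,6)`-sparse subgraph of `G` (found by the
greedy algorithm).  The generic rank of the rigidity matrix of `G` in `ℝ³` is the number of edges of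
`H`.  If `G` has `n ≥ 3` vertices then it is generically rigid iff `H` has `3n - 6` edges, and
minimally generically rigid iff it is `(3,6)`-sparse with `3n - 6` edges. -/
theorem result :
    ∀ (V : Type) [Fintype V] (G H : SimpleGraph V), CoreLeFive G → MaxSparse G H →
      (∀ p : V → Fin 3 → ℝ, Generic p → (rigidityMatrix G p).rank = H.edgeSet.ncard) ∧
      (∀ p : V → Fin 3 → ℝ, (rigidityMatrix G p).rank ≤ H.edgeSet.ncard) ∧
      (3 ≤ Fintype.card V → (DR.GenRigid 3 G ↔ H.edgeSet.ncard + 6 = 3 * Fintype.card V) ∧
        (MinGenRigid G ↔ Sparse36 G ∧ G.edgeSet.ncard + 6 = 3 * Fintype.card V)) := by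
  intro V _ G H hc hH
  exact ⟨fun p hp => RK.rank_max hc hH hp, fun p => RK.rank_le hc hH p,
    fun h3 => ⟨RK.genRigid_iff hc hH h3, RK.minGenRigid_iff hc h3⟩⟩

end Pool.Agent.Results.MP_37c7bf_co.CoreDegreeFive
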