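import Mathlib
import Pool.Agent.H283R2.DR.GeneralIff

set_option autoImplicit false

/-!
Generic rigidity in `ℝ^d` is first-order definable on dense graphs: for all `ε > 0` and `a` there
is a sentence of the first-order language of graphs that holds exactly in the generically rigid
graphs, for all finite graphs in which every independent set with more than `a` vertices contains
a vertex of degree at least `ε n`.
-/

namespace Pool.Agent.Results.MP_37c7bf_co.FirstOrder

open Pool.Agent.H283R2.DR

theorem result (d a : ℕ) (ε : ℝ) (hε : 0 < ε) :
    ∃ φ : FirstOrder.Language.graph.Sentence,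
    ∀ (V : Type) [Fintype V] (G : SimpleGraph V) [DecidableRel G.Adj],
      (∀ S : Finset V, G.IsIndepSet (S : Set V) → a < S.card →
        ∃ v ∈ S, ε * (Fintype.card V : ℝ) ≤ (G.degree v : ℝ)) →
      (@FirstOrder.Language.Sentence.Realize FirstOrder.Language.graph V G.structure φ ↔
        GenRigid d G) :=
  firstOrder_iff d a ε hε

end Pool.Agent.Results.MP_37c7bf_co.FirstOrder
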