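import Mathlib
import Pool.Agent.H283R2.DR.GeneralIff

set_option autoImplicit false

/-!
Generic rigidity of graphs with large degrees or small independent sets is a local property:
for graphs on `n` vertices in which every independent set with more than `a` vertices contains a
vertex of degree at least `δ`, generic rigidity in `ℝ^d` holds iff any two vertices lie in a
generically rigid induced subgraph with at most `C (n / δ) ^ (2 d + 4)` vertices.
-/

namespace Pool.Agent.Results.MP_37c7bf_co.LocalRigidity

open Pool.Agent.H283R2.DR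

theorem result (d a : ℕ) : ∃ C : ℝ, ∀ (V : Type) [Fintype V] (G : SimpleGraph V)
    [DecidableRel G.Adj] (δ : ℕ), 0 < δ → δ ≤ Fintype.card V →
    (∀ S : Finset V, G.IsIndepSet (S : Set V) → a < S.card → ∃ v ∈ S, δ ≤ G.degree v) →
    (GenRigid d G ↔ ∀ u v : V, ∃ U : Finset V, u ∈ U ∧ v ∈ U ∧
      (U.card : ℝ) ≤ C * ((Fintype.card V : ℝ) / δ) ^ (2 * d + 4) ∧
      GenRigid d (G.induce (U : Set V))) :=
  local_iff d a

end Pool.Agent.Results.MP_37c7bf_co.LocalRigidity
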