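import Mathlib
import Pool.Agent.H530R2.SubDet
import Pool.Agent.H530R2.LinAlg

/-!
# A subexponential deterministic test for generic rigidity

For all `d` and `n` an explicit set of `2^(O(n^(2/3) log n))` integer placements of `n` vertices
in `d`-space is such that the rigidity matrix of every graph on these vertices attains its generic
rank at one of the placements.
-/

namespace Pool.Agent.Results.MP_37c7bf_co.SubexponentialPlacements

open MvPolynomial

/-- The symbolic matrix `A₀ + x_0 A_0 + … + x_(n-1) A_(n-1)`. -/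
noncomputable def symbolic {F : Type*} [Field F] {n N : ℕ} (A₀ : Matrix (Fin N) (Fin N) F)
    (A : Fin n → Matrix (Fin N) (Fin N) F) : Matrix (Fin N) (Fin N) (MvPolynomial (Fin n) F) :=
  A₀.map C + ∑ i, (X i : MvPolynomial (Fin n) F) • (A i).map C

/-- `t = ⌊r³ / r⌋`, which is `r²` for `r ≥ 1` -/
def cnt (r : ℕ) : ℕ := r ^ 3 / r

/-- `brk` cuts the variables `x_0, …, x_(n-1)` into `t + 1` consecutive blocks: the variable `x_i`
is in the block whose number is the number of the break points which are at most `i`. -/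
def block {n t : ℕ} (brk : Fin t → Fin (n + 1)) (i : Fin n) : Fin (t + 1) :=
  ⟨(Finset.univ.filter fun l : Fin t => (brk l : ℕ) ≤ i).card, by
    refine Nat.lt_succ_of_le ((Finset.card_le_univ _).trans ?_)
    simp⟩

/-- The point given by positions `pos` with values `val`, by break points `brk`, and by seeds `y`
and `u`: the `i`-th coordinate is the value at the position `i` if `i` is one of the positions,
and `∑_k y_k u_b^((i+1)k)` otherwise, where `b` is the number of the block of `i`. -/
def point {n t ℓ : ℕ} (pos : Fin t → Fin (n + 1)) (val : Fin t → ℕ)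
    (brk : Fin t → Fin (n + 1)) (y : Fin ℓ → ℕ) (u : Fin (t + 1) → ℕ) : Fin n → ℤ :=
  fun i => if ∃ l, (pos l : ℕ) = i then ∑ l, (if (pos l : ℕ) = i then (val l : ℤ) else 0)
    else ∑ k : Fin ℓ, (y k : ℤ) * (u (block brk i) : ℤ) ^ (((i : ℕ) + 1) * (k : ℕ))

/-- All points with `t = cnt r`, `ℓ = 4r²`, values and seeds `y` in `{0, …, r³}` and seeds `u` in
`{0, …, 4r²·n·r³}`. -/
def points (n r : ℕ) : Finset (Fin n → ℤ) :=
  (Finset.univ : Finset ((Fin (cnt r) → Fin (n + 1)) × (Fin (cnt r) → Fin (r ^ 3 + 1)) ×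
      (Fin (cnt r) → Fin (n + 1)) × (Fin (4 * r ^ 2) → Fin (r ^ 3 + 1)) ×
      (Fin (cnt r + 1) → Fin (4 * r ^ 2 * n * r ^ 3 + 1)))).image
    fun q => point q.1 (fun l => (q.2.1 l : ℕ)) q.2.2.1 (fun k => (q.2.2.2.1 k : ℕ))
      (fun c => (q.2.2.2.2 c : ℕ))

theorem cnt_le (r : ℕ) : cnt r ≤ r ^ 2 := by
  unfold cnt
  rcases Nat.eq_zero_or_pos r with h | h
  · subst h; simp
  · rw [Nat.div_le_iff_le_mul_add_pred h]
    have : r ^ 3 = r * r ^ 2 := by ring
    omega

theorem points_card (n r : ℕ) (hr : 1 ≤ r) :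
    (points n r).card ≤ (4 * r ^ 2 * (n + 1) * (r ^ 3 + 1)) ^ (9 * r ^ 2) := by
  unfold points
  refine Finset.card_image_le.trans ?_
  rw [Finset.card_univ]
  simp only [Fintype.card_prod, Fintype.card_pi, Fintype.card_fin, Finset.prod_const,
    Finset.card_univ]
  have hc : cnt r ≤ r ^ 2 := cnt_le r
  have hr2 : 1 ≤ r ^ 2 := Nat.one_le_pow _ _ hr
  set B := 4 * r ^ 2 * (n + 1) * (r ^ 3 + 1) with hB
  have hB1 : 1 ≤ B := by
    have : 0 < B := by positivity
    omega
  have h1 : n + 1 ≤ B := by
    calc n + 1 = 1 * (n + 1) * 1 := by ring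
      _ ≤ 4 * r ^ 2 * (n + 1) * (r ^ 3 + 1) := by gcongr <;> omega
  have h2 : r ^ 3 + 1 ≤ B := by
    calc r ^ 3 + 1 = 1 * 1 * (r ^ 3 + 1) := by ring
      _ ≤ 4 * r ^ 2 * (n + 1) * (r ^ 3 + 1) := by gcongr <;> omega
  have h3 : 4 * r ^ 2 * n * r ^ 3 + 1 ≤ B := by
    have : 4 * r ^ 2 * (n + 1) * (r ^ 3 + 1) = 4 * r ^ 2 * n * r ^ 3 + 4 * r ^ 2 * n +
      4 * r ^ 2 * r ^ 3 + 4 * r ^ 2 := by ring
    omega
  calc (n + 1) ^ cnt r * ((r ^ 3 + 1) ^ cnt r * ((n + 1) ^ cnt r * ((r ^ 3 + 1) ^ (4 * r ^ 2) *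
        (4 * r ^ 2 * n * r ^ 3 + 1) ^ (cnt r + 1))))
      ≤ B ^ (r ^ 2) * (B ^ (r ^ 2) * (B ^ (r ^ 2) * (B ^ (4 * r ^ 2) * B ^ (2 * r ^ 2)))) := by
        gcongr
        omega
    _ = B ^ (9 * r ^ 2) := by
        rw [← pow_add, ← pow_add, ← pow_add, ← pow_add]
        congr 1
        ring

theorem points_bound (n r : ℕ) (p : Fin n → ℤ) (hp : p ∈ points n r) (i : Fin n) :
    |p i| ≤ ((4 * r ^ 2 * r ^ 3 * (4 * r ^ 2 * n * r ^ 3 + 1) ^ (4 * r ^ 2 * n) : ℕ) : ℤ) := by
  unfold points at hp
  rw [Finset.mem_image] at hp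
  obtain ⟨⟨pos, val, brk, y, u⟩, _, rfl⟩ := hp
  simp only [point]
  have hc : cnt r ≤ 4 * r ^ 2 := (cnt_le r).trans (by omega)
  split_ifs with h
  · calc |∑ l, (if (pos l : ℕ) = i then ((val l : ℕ) : ℤ) else 0)|
        ≤ ∑ l, |(if (pos l : ℕ) = i then ((val l : ℕ) : ℤ) else 0)| :=
          Finset.abs_sum_le_sum_abs _ _
      _ ≤ ∑ l : Fin (cnt r), ((r ^ 3 : ℕ) : ℤ) := by
          apply Finset.sum_le_sum
          intro l _
          split_ifs
          · rw [abs_of_nonneg (by positivity)]
            have := (val l).isLt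
            exact_mod_cast Nat.lt_succ_iff.1 this
          · simp
      _ = ((cnt r * r ^ 3 * 1 : ℕ) : ℤ) := by simp
      _ ≤ _ := by
          apply Int.ofNat_le.2
          gcongr
          exact Nat.one_le_pow _ _ (by omega)
  · calc |∑ k, ((y k : ℕ) : ℤ) * ((u (block brk i) : ℕ) : ℤ) ^ (((i : ℕ) + 1) * (k : ℕ))|
        ≤ ∑ k, |((y k : ℕ) : ℤ) * ((u (block brk i) : ℕ) : ℤ) ^ (((i : ℕ) + 1) * (k : ℕ))| :=
          Finset.abs_sum_le_sum_abs _ _
      _ ≤ ∑ k : Fin (4 * r ^ 2),
          ((r ^ 3 * (4 * r ^ 2 * n * r ^ 3 + 1) ^ (4 * r ^ 2 * n) : ℕ) : ℤ) := by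
          apply Finset.sum_le_sum
          intro k _
          rw [abs_of_nonneg (by positivity)]
          have h1 := (y k).isLt
          have h2 := (u (block brk i)).isLt
          have h3 : ((i : ℕ) + 1) * (k : ℕ) ≤ 4 * r ^ 2 * n := by
            rw [mul_comm (4 * r ^ 2) n]
            exact Nat.mul_le_mul i.isLt k.isLt.le
          have h4 : (y k : ℕ) * (u (block brk i) : ℕ) ^ (((i : ℕ) + 1) * (k : ℕ)) ≤
              r ^ 3 * (4 * r ^ 2 * n * r ^ 3 + 1) ^ (4 * r ^ 2 * n) := by
            calc (y k : ℕ) * (u (block brk i) : ℕ) ^ (((i : ℕ) + 1) * (k : ℕ))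
                ≤ r ^ 3 * (4 * r ^ 2 * n * r ^ 3 + 1) ^ (((i : ℕ) + 1) * (k : ℕ)) := by
                  gcongr
                  omega
              _ ≤ _ := by
                  gcongr
                  omega
          exact_mod_cast h4
      _ = _ := by
          rw [Finset.sum_const, Finset.card_univ, Fintype.card_fin, nsmul_eq_mul]
          push_cast
          ring

open Pool.Agent.H530R2 in
/-- a symbolic matrix as a sum of rank-one terms -/
theorem exists_symM {F : Type*} [Field F] {n N s : ℕ} (A₀ : Matrix (Fin N) (Fin N) F)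
    (A : Fin n → Matrix (Fin N) (Fin N) F) (hs : ∑ i, (A i).rank ≤ s) :
    ∃ (s' : ℕ) (v : Fin s' → Fin n) (a b : Fin s' → Fin N → F),
      s' ≤ s ∧ symbolic A₀ A = symM A₀ v a b := by
  classical
  choose a b hab using fun i => exists_rank_factor (A i)
  have hcard : Fintype.card (Σ i : Fin n, Fin (A i).rank) = ∑ i, (A i).rank := by
    rw [Fintype.card_sigma]
    simp
  set e : (Σ i : Fin n, Fin (A i).rank) ≃ Fin (Fintype.card (Σ i : Fin n, Fin (A i).rank)) :=
    Fintype.equivFin _ with he
  refine ⟨Fintype.card (Σ i : Fin n, Fin (A i).rank), fun x => (e.symm x).1,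
    fun x => a (e.symm x).1 (e.symm x).2,
    fun x => b (e.symm x).1 (e.symm x).2, by rw [hcard]; exact hs, ?_⟩
  ext1 i j
  rw [symbolic, Matrix.add_apply, Matrix.map_apply, Matrix.sum_apply]
  simp only [symM, Matrix.smul_apply, Matrix.map_apply, smul_eq_mul]
  congr 1
  rw [Equiv.sum_comp e.symm (fun x : (Σ i : Fin n, Fin (A i).rank) =>
    (X x.1 : MvPolynomial (Fin n) F) * C (a x.1 x.2 i * b x.1 x.2 j)), Fintype.sum_sigma]
  apply Finset.sum_congr rfl
  intro l _
  rw [hab l i j, map_sum, Finset.mul_sum]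

theorem eval_det {F : Type*} [Field F] {n N : ℕ} (A₀ : Matrix (Fin N) (Fin N) F)
    (A : Fin n → Matrix (Fin N) (Fin N) F) (p : Fin n → F) :
    MvPolynomial.eval p (symbolic A₀ A).det = (A₀ + ∑ i, p i • A i).det := by
  rw [RingHom.map_det]
  congr 1
  ext1 i j
  rw [RingHom.mapMatrix_apply, Matrix.map_apply, symbolic, Matrix.add_apply, Matrix.add_apply,
    Matrix.sum_apply, Matrix.sum_apply]
  simp [Matrix.smul_apply]

/-- Symbolic determinants with `∑ rank A_i ≤ r³` do not vanish on `points n r`. -/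
theorem points_hit {F : Type*} [Field F] [CharZero F] (n r : ℕ) (hr : 1 ≤ r) :
    (points n r).card ≤ (4 * r ^ 2 * (n + 1) * (r ^ 3 + 1)) ^ (9 * r ^ 2) ∧
    (∀ p ∈ points n r, ∀ i, |p i| ≤
      ((4 * r ^ 2 * r ^ 3 * (4 * r ^ 2 * n * r ^ 3 + 1) ^ (4 * r ^ 2 * n) : ℕ) : ℤ)) ∧
    ∀ (N : ℕ) (A₀ : Matrix (Fin N) (Fin N) F) (A : Fin n → Matrix (Fin N) (Fin N) F),
      ∑ i, (A i).rank ≤ r ^ 3 →
      ((symbolic A₀ A).det ≠ 0 ↔
        ∃ p ∈ points n r, (A₀ + ∑ i, (p i : F) • A i).det ≠ 0) := by
  classical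
  refine ⟨points_card n r hr, points_bound n r, ?_⟩
  intro N A₀ A hA
  constructor
  swap
  · rintro ⟨p, _, hp⟩ h0
    apply hp
    rw [← eval_det A₀ A (fun i => (p i : F)), h0, map_zero]
  intro hf0
  obtain ⟨s', vv, a, b, hs', hsym⟩ := exists_symM A₀ A hA
  by_contra hcon
  push Not at hcon
  have hcon' : ∀ p ∈ points n r,
      MvPolynomial.eval (fun i => (p i : F)) (Pool.Agent.H530R2.symM A₀ vv a b).det = 0 := by
    intro p hp
    rw [← hsym, eval_det A₀ A (fun i => (p i : F))]
    exact hcon p hp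
  rw [hsym] at hf0
  obtain ⟨H, bl, hH, hbl, v, y, u, hv, hy, hu, hev⟩ :=
    Pool.Agent.H530R2.gen_seeds (ℓ := 4 * r ^ 2) (Finset.univ.image vv)
      (Pool.Agent.H530R2.symM_supp A₀ vv a b)
      (fun i => (Finset.univ.filter fun e => vv e = i).card) (r ^ 3) r (r ^ 3)
      (by
        rw [← Finset.card_eq_sum_card_fiberwise (f := vv) (s := Finset.univ)
          (t := Finset.univ) (fun _ _ => Finset.mem_coe.2 (Finset.mem_univ _))]
        simpa using hs') hr hf0
      ((Pool.Agent.H530R2.symM_totalDegree A₀ vv a b).trans hs')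
      (fun V hV hVw => by
        refine Pool.Agent.H530R2.symM_compress A₀ vv a b V hV (2 * (r - 1)) _ ?_ ?_
        · refine le_trans (le_of_eq ?_) hVw
          rw [Finset.card_eq_sum_card_fiberwise (f := vv) (t := V)
            (fun e he => by simpa using he)]
          apply Finset.sum_congr rfl
          intro i hi
          congr 1
          ext e
          simp only [Finset.mem_filter, Finset.mem_univ, true_and]
          constructor
          · exact fun h => h.2
          · exact fun h => ⟨by rw [h]; exact hi, h⟩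
        · obtain ⟨r', rfl⟩ : ∃ r', r = r' + 1 := ⟨r - 1, by omega⟩
          rw [Nat.add_sub_cancel]
          nlinarith)
  obtain ⟨β, hβ⟩ := Pool.Agent.H530R2.exists_breaks bl hbl
  obtain ⟨pos, hpos1, hpos2⟩ := Pool.Agent.H530R2.exists_slots H hH
  apply hev
  have hcomm : n * (4 * r ^ 2) * r ^ 3 = 4 * r ^ 2 * n * r ^ 3 := by ring
  have hmem : point pos (fun l => if h : (pos l : ℕ) < n then v ⟨pos l, h⟩ else 0) β y u ∈
      points n r := by
    unfold points
    rw [Finset.mem_image]
    refine ⟨⟨pos, fun l => ⟨if h : (pos l : ℕ) < n then v ⟨pos l, h⟩ else 0, ?_⟩, β,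
      fun k => ⟨y k, Nat.lt_succ_of_le (hy k)⟩,
      fun c => ⟨u c, Nat.lt_succ_of_le (by rw [← hcomm]; exact hu c)⟩⟩, Finset.mem_univ _, rfl⟩
    split_ifs
    · exact Nat.lt_succ_of_le (hv _)
    · omega
  rw [← hcon' _ hmem]
  congr 2
  funext i
  have hblk : block β i = bl i := Fin.ext (hβ i)
  simp only [point]
  by_cases hi : i ∈ H
  · obtain ⟨l, hl⟩ := (hpos1 i).2 hi
    rw [if_pos hi, if_pos ⟨l, hl⟩, Finset.sum_eq_single l]
    · rw [if_pos hl]
      have h1 : (pos l : ℕ) < n := by rw [hl]; exact i.isLt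
      have h2 : (⟨pos l, h1⟩ : Fin n) = i := Fin.ext hl
      rw [dif_pos h1, h2]
      simp
    · intro l' _ hne'
      rw [if_neg]
      intro h
      exact hne' (hpos2 i l' l h hl)
    · simp
  · rw [if_neg hi, if_neg (fun h => hi ((hpos1 i).1 h)), hblk]
    push_cast
    rfl



/-! ### The rigidity matrix -/

/-- The entry in the column of the `k`-th coordinate of the vertex `w` (where `c = (w, k)`) of the
row of the edge `uv`: it is `p u k - p v k` for `w = u`, `p v k - p u k` for `w = v`, else `0`. -/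
def rowEntry {R : Type*} [Ring R] {n d : ℕ} (p : Fin n → Fin d → R) (c : Fin n × Fin d)
    (u v : Fin n) : R :=
  if c.1 = u then p u c.2 - p v c.2 else if c.1 = v then p v c.2 - p u c.2 else 0

theorem rowEntry_symm {R : Type*} [Ring R] {n d : ℕ} (p : Fin n → Fin d → R)
    (c : Fin n × Fin d) (u v : Fin n) : rowEntry p c u v = rowEntry p c v u := by
  unfold rowEntry
  by_cases h1 : c.1 = u
  · by_cases h2 : c.1 = v
    · rw [if_pos h1, if_pos h2, ← h1, ← h2]
    · rw [if_pos h1, if_neg h2, if_pos h1]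
  · by_cases h2 : c.1 = v
    · rw [if_neg h1, if_pos h2, if_pos h2]
    · rw [if_neg h1, if_neg h2, if_neg h2, if_neg h1]

/-- The rigidity matrix of the framework `(G, p)` in dimension `d`, with one row for each edge of
`G` and `d` columns for each vertex. -/
def rigidityMatrix {R : Type*} [Ring R] {n d : ℕ} (G : SimpleGraph (Fin n))
    (p : Fin n → Fin d → R) : Matrix G.edgeSet (Fin n × Fin d) R :=
  fun e c => Sym2.lift ⟨rowEntry p c, rowEntry_symm p c⟩ (e : Sym2 (Fin n))

/-- The placements: the points of `points (n * d) r`, cut into `n` vectors of length `d` each. -/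
def placements (d n r : ℕ) : Finset (Fin n → Fin d → ℤ) :=
  (points (n * d) r).image fun x v k => x (finProdFinEquiv (v, k))

/-- The rank of the rigidity matrix of `G` at the integer placement `q`. -/
noncomputable def rankAt {d n : ℕ} (G : SimpleGraph (Fin n)) (q : Fin n → Fin d → ℤ) : ℕ :=
  (rigidityMatrix G (fun v k => (q v k : ℝ))).rank

/-- `G` is generically rigid in `ℝ^d`: for every placement `p` whose `dn` coordinates are
algebraically independent over `ℚ`, the rigidity matrix of `G` has the same rank at `p` as the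
rigidity matrix of the complete graph. -/
def GenericallyRigid {n : ℕ} (d : ℕ) (G : SimpleGraph (Fin n)) : Prop :=
  ∀ p : Fin n → Fin d → ℝ, AlgebraicIndependent ℚ (fun i : Fin n × Fin d => p i.1 i.2) →
    (rigidityMatrix G p).rank = (rigidityMatrix (⊤ : SimpleGraph (Fin n)) p).rank

/-! ### Linear algebra -/

/-- a nonvanishing minor of maximal size -/
theorem exists_minor {K ι κ : Type*} [Field K] [Finite ι] [Fintype κ] (M : Matrix ι κ K) :
    ∃ (s : Fin M.rank → ι) (c : Fin M.rank → κ), (M.submatrix s c).det ≠ 0 := by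
  classical
  have hfr : Module.finrank K (Submodule.span K (Set.range M.row)) = M.rank :=
    (Matrix.rank_eq_finrank_span_row M).symm
  obtain ⟨f, hf, -, hli⟩ := Submodule.exists_fun_fin_finrank_span_eq K (Set.range M.row)
  have hf' : ∀ i, ∃ j, M.row j = f i := fun i => hf i
  choose j hj using hf'
  have hli2 : LinearIndependent K (fun l : Fin M.rank => M (j (Fin.cast hfr.symm l))) := by
    have h1 := hli.comp (Fin.cast hfr.symm) (Fin.cast_injective _)
    have h2 : (f ∘ Fin.cast hfr.symm) = fun l : Fin M.rank => M (j (Fin.cast hfr.symm l)) := by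
      funext l
      exact (hj (Fin.cast hfr.symm l)).symm
    rw [h2] at h1
    exact h1
  obtain ⟨g, hg⟩ := Pool.Agent.H530R2.exists_minor_ne_zero _ hli2
  exact ⟨fun l => j (Fin.cast hfr.symm l), g, hg⟩

theorem le_rank_of_minor {K ι κ : Type*} [Field K] [Fintype κ] (M : Matrix ι κ K) {m : ℕ}
    (s : Fin m → ι) (c : Fin m → κ) (h : (M.submatrix s c).det ≠ 0) : m ≤ M.rank := by
  have h1 := Matrix.rank_of_det_ne_zero h
  rw [Fintype.card_fin] at h1
  rw [← h1]
  exact Matrix.rank_submatrix_le M s c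

/-- the unit placement of the `i`-th coordinate -/
def unitPl (K : Type*) [Ring K] {n d : ℕ} (i : Fin (n * d)) : Fin n → Fin d → K :=
  fun v k => if finProdFinEquiv (v, k) = i then 1 else 0

theorem rowEntry_linear {K : Type*} [CommRing K] {n d : ℕ} (x : Fin (n * d) → K)
    (c : Fin n × Fin d) (u v : Fin n) :
    rowEntry (fun v k => x (finProdFinEquiv (v, k))) c u v =
      ∑ i, x i * rowEntry (unitPl K i) c u v := by
  have key : ∀ w k, ∑ i, x i * unitPl K i w k = x (finProdFinEquiv (w, k)) := by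
    intro w k
    simp [unitPl]
  unfold rowEntry
  split_ifs
  · change x (finProdFinEquiv (u, c.2)) - x (finProdFinEquiv (v, c.2)) = _
    rw [← key u, ← key v, ← Finset.sum_sub_distrib]
    exact Finset.sum_congr rfl fun i _ => by ring
  · change x (finProdFinEquiv (v, c.2)) - x (finProdFinEquiv (u, c.2)) = _
    rw [← key u, ← key v, ← Finset.sum_sub_distrib]
    exact Finset.sum_congr rfl fun i _ => by ring
  · simp

theorem rigidityMatrix_linear {K : Type*} [CommRing K] {n d : ℕ} (G : SimpleGraph (Fin n))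
    (x : Fin (n * d) → K) (e : G.edgeSet) (c : Fin n × Fin d) :
    rigidityMatrix G (fun v k => x (finProdFinEquiv (v, k))) e c =
      ∑ i, x i * rigidityMatrix G (unitPl K i) e c := by
  obtain ⟨e, he⟩ := e
  induction e using Sym2.ind with
  | _ u v => exact rowEntry_linear x c u v

theorem rigidityMatrix_unit_eq_zero {K : Type*} [CommRing K] {n d : ℕ} (G : SimpleGraph (Fin n))
    (i : Fin (n * d)) (e : G.edgeSet) (h : (finProdFinEquiv.symm i).1 ∉ (e : Sym2 (Fin n)))
    (c : Fin n × Fin d) : rigidityMatrix G (unitPl K i) e c = 0 := by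
  obtain ⟨e, he⟩ := e
  induction e using Sym2.ind with
  | _ u v =>
    have h0 : ∀ w k, w ∈ s(u, v) → unitPl K i w k = 0 := by
      intro w k hw
      unfold unitPl
      rw [if_neg]
      rintro rfl
      apply h
      simpa using hw
    change rowEntry (unitPl K i) c u v = 0
    unfold rowEntry
    rw [h0 u _ (by simp), h0 v _ (by simp)]
    simp

theorem card_incident {n d : ℕ} (e : Sym2 (Fin n)) [inst : DecidablePred fun i : Fin (n * d) =>
    (finProdFinEquiv.symm i).1 ∈ e] :
    (Finset.univ.filter fun i : Fin (n * d) => (finProdFinEquiv.symm i).1 ∈ e).card ≤ 2 * d := by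
  classical
  revert inst
  induction e using Sym2.ind with
  | _ u v =>
    intro inst
    have h1 : (Finset.univ.filter fun i : Fin (n * d) => (finProdFinEquiv.symm i).1 ∈ s(u, v)) ⊆
        (({u, v} : Finset (Fin n)) ×ˢ (Finset.univ : Finset (Fin d))).image finProdFinEquiv := by
      intro i hi
      rw [Finset.mem_filter] at hi
      rw [Finset.mem_image]
      refine ⟨finProdFinEquiv.symm i, ?_, Equiv.apply_symm_apply _ _⟩
      rw [Finset.mem_product]
      refine ⟨?_, Finset.mem_univ _⟩
      have := hi.2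
      rw [Sym2.mem_iff] at this
      simpa using this
    refine (Finset.card_le_card h1).trans (Finset.card_image_le.trans ?_)
    rw [Finset.card_product, Finset.card_univ, Fintype.card_fin]
    exact Nat.mul_le_mul_right _ Finset.card_le_two

/-- **Main step.** The rank of `R(G, p)` is attained on the placements. -/
theorem exists_placement {K : Type*} [Field K] [CharZero K] (d n r : ℕ) (hr : 1 ≤ r)
    (hn : 2 * d ^ 2 * n ≤ r ^ 3) (G : SimpleGraph (Fin n)) (p : Fin n → Fin d → K) :
    ∃ q ∈ placements d n r,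
      (rigidityMatrix G p).rank ≤ (rigidityMatrix G (fun v k => (q v k : K))).rank := by
  classical
  obtain ⟨ρ, hρ, s, c, hsc⟩ : ∃ ρ, (rigidityMatrix G p).rank = ρ ∧
      ∃ (s : Fin ρ → G.edgeSet) (c : Fin ρ → Fin n × Fin d),
        ((rigidityMatrix G p).submatrix s c).det ≠ 0 := ⟨_, rfl, exists_minor _⟩
  set A : Fin (n * d) → Matrix (Fin ρ) (Fin ρ) K :=
    fun i => (rigidityMatrix G (unitPl K i)).submatrix s c with hA
  have hlin : ∀ x : Fin (n * d) → K, (0 : Matrix (Fin ρ) (Fin ρ) K) + ∑ i, x i • A i =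
      (rigidityMatrix G (fun v k => x (finProdFinEquiv (v, k)))).submatrix s c := by
    intro x
    ext1 a b
    rw [zero_add, Matrix.sum_apply, Matrix.submatrix_apply, rigidityMatrix_linear]
    rfl
  have hρle : ρ ≤ n * d := by
    have := Matrix.rank_le_card_width (rigidityMatrix G p)
    rwa [Fintype.card_prod, Fintype.card_fin, Fintype.card_fin, hρ] at this
  have hrank : ∑ i, (A i).rank ≤ r ^ 3 := by
    have h1 : ∀ i, (A i).rank ≤ (Finset.univ.filter fun a : Fin ρ =>
        (finProdFinEquiv.symm i).1 ∈ ((s a : G.edgeSet) : Sym2 (Fin n))).card := by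
      intro i
      apply Matrix.rank_le_card_of_support_subset
      intro a ha
      rw [Function.mem_support] at ha
      rw [Finset.mem_coe, Finset.mem_filter]
      refine ⟨Finset.mem_univ _, ?_⟩
      by_contra hcon
      apply ha
      funext b
      exact rigidityMatrix_unit_eq_zero G i (s a) hcon (c b)
    calc ∑ i, (A i).rank ≤ ∑ i, (Finset.univ.filter fun a : Fin ρ =>
          (finProdFinEquiv.symm i).1 ∈ ((s a : G.edgeSet) : Sym2 (Fin n))).card :=
          Finset.sum_le_sum fun i _ => h1 i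
      _ = ∑ a : Fin ρ, (Finset.univ.filter fun i : Fin (n * d) =>
          (finProdFinEquiv.symm i).1 ∈ ((s a : G.edgeSet) : Sym2 (Fin n))).card := by
          simp only [Finset.card_filter]
          exact Finset.sum_comm
      _ ≤ ∑ a : Fin ρ, 2 * d := Finset.sum_le_sum fun a _ => card_incident _
      _ = ρ * (2 * d) := by simp
      _ ≤ (n * d) * (2 * d) := Nat.mul_le_mul_right _ hρle
      _ = 2 * d ^ 2 * n := by ring
      _ ≤ r ^ 3 := hn
  have hne : (symbolic (0 : Matrix (Fin ρ) (Fin ρ) K) A).det ≠ 0 := by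
    intro h0
    apply hsc
    have h1 := eval_det (0 : Matrix (Fin ρ) (Fin ρ) K) A
      (fun i => p (finProdFinEquiv.symm i).1 (finProdFinEquiv.symm i).2)
    rw [h0, map_zero, hlin] at h1
    have h2 : (fun v k => p (finProdFinEquiv.symm (finProdFinEquiv (v, k))).1
        (finProdFinEquiv.symm (finProdFinEquiv (v, k))).2) = p := by
      funext v k
      simp
    rw [h2] at h1
    exact h1.symm
  obtain ⟨x, hx, hdet⟩ := ((points_hit (F := K) (n * d) r hr).2.2 ρ 0 A hrank).1 hne
  refine ⟨fun v k => x (finProdFinEquiv (v, k)), ?_, ?_⟩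
  · unfold placements
    exact Finset.mem_image_of_mem _ hx
  · rw [hlin (fun i => (x i : K))] at hdet
    rw [hρ]
    exact le_rank_of_minor _ s c hdet

theorem rigidityMatrix_map {R S : Type*} [Ring R] [Ring S] (φ : R →+* S) {n d : ℕ}
    (G : SimpleGraph (Fin n)) (p : Fin n → Fin d → R) (e : G.edgeSet) (c : Fin n × Fin d) :
    φ (rigidityMatrix G p e c) = rigidityMatrix G (fun v k => φ (p v k)) e c := by
  obtain ⟨e, he⟩ := e
  induction e using Sym2.ind with
  | _ u v =>
    change φ (rowEntry p c u v) = rowEntry (fun v k => φ (p v k)) c u v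
    unfold rowEntry
    split_ifs <;> simp

/-- at a placement with algebraically independent coordinates the rank is maximal -/
theorem rank_le_generic {d n : ℕ} (G : SimpleGraph (Fin n)) (p q : Fin n → Fin d → ℝ)
    (hp : AlgebraicIndependent ℚ (fun i : Fin n × Fin d => p i.1 i.2)) :
    (rigidityMatrix G q).rank ≤ (rigidityMatrix G p).rank := by
  classical
  obtain ⟨s, c, hsc⟩ := exists_minor (rigidityMatrix G q)
  set f : MvPolynomial (Fin n × Fin d) ℚ := ((rigidityMatrix G (fun v k =>
    (X (v, k) : MvPolynomial (Fin n × Fin d) ℚ))).submatrix s c).det with hf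
  have hev : ∀ x : Fin n → Fin d → ℝ, aeval (fun i : Fin n × Fin d => x i.1 i.2) f =
      ((rigidityMatrix G x).submatrix s c).det := by
    intro x
    rw [hf, AlgHom.map_det]
    congr 1
    ext1 a b
    rw [AlgHom.mapMatrix_apply, Matrix.map_apply, Matrix.submatrix_apply, Matrix.submatrix_apply]
    have h1 := rigidityMatrix_map
      ((aeval (fun i : Fin n × Fin d => x i.1 i.2) :
        MvPolynomial (Fin n × Fin d) ℚ →ₐ[ℚ] ℝ) : MvPolynomial (Fin n × Fin d) ℚ →+* ℝ) G
      (fun v k => (X (v, k) : MvPolynomial (Fin n × Fin d) ℚ)) (s a) (c b)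
    rw [RingHom.coe_coe] at h1
    rw [h1]
    congr 1
    funext v k
    rw [aeval_X]
  apply le_rank_of_minor _ s c
  rw [← hev]
  intro h0
  have h1 : f = 0 := by
    apply (algebraicIndependent_iff.1 hp) f
    exact h0
  apply hsc
  rw [← hev, h1, map_zero]

/-- placements with algebraically independent coordinates exist -/
theorem exists_generic (d n : ℕ) : ∃ p : Fin n → Fin d → ℝ,
    AlgebraicIndependent ℚ (fun i : Fin n × Fin d => p i.1 i.2) := by
  classical
  obtain ⟨s, hs⟩ := exists_isTranscendenceBasis ℚ ℝ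
  have hinf : s.Infinite := by
    intro hfin
    have hc : Countable s := hfin.countable
    have h2 : Algebra.IsAlgebraic (Algebra.adjoin ℚ (Set.range ((↑) : s → ℝ))) ℝ :=
      hs.isAlgebraic
    have h1 := Algebra.IsAlgebraic.cardinalMk_le_max
      (Algebra.adjoin ℚ (Set.range ((↑) : s → ℝ))) ℝ
    have h3 : Cardinal.mk (Algebra.adjoin ℚ (Set.range ((↑) : s → ℝ))) ≤ Cardinal.aleph0 := by
      have h4 : Cardinal.mk (MvPolynomial s ℚ) ≤ Cardinal.aleph0 := by
        refine MvPolynomial.cardinalMk_le_max.trans ?_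
        simp
      rwa [Cardinal.mk_congr hs.1.aevalEquiv.toEquiv] at h4
    rw [Cardinal.mk_real] at h1
    exact absurd (h1.trans (max_le h3 le_rfl)) (not_le.2 Cardinal.aleph0_lt_continuum)
  have : Infinite s := hinf.to_subtype
  obtain ⟨e⟩ : Nonempty ((Fin n × Fin d) ↪ s) :=
    ⟨(Fintype.equivFin (Fin n × Fin d)).toEmbedding.trans
      (Fin.valEmbedding.trans (Infinite.natEmbedding s))⟩
  refine ⟨fun v k => (e (v, k) : ℝ), ?_⟩
  exact hs.1.comp e e.injective

/-- **Subexponential deterministic test for generic rigidity in `ℝ^d`.** Let `r ≥ 1` and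
`2d²n ≤ r³`. The explicit set `placements d n r` of at most `(4r²(nd+1)(r³+1))^(9r²)` integer
placements of `n` vertices in `d`-space, with coordinates of polynomial bit length, has the
following property for every graph `G` on the `n` vertices: the rank of the rigidity matrix of `G`
at any real placement is at most its rank at some placement of the set, the generic rank of `G`
(its rank at any placement with algebraically independent coordinates) is the maximum of its ranks
at the placements of the set, and so `G` is generically rigid in `ℝ^d` if and only if `G` and the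
complete graph have the same maximum of the ranks over the set. -/
theorem result (d n r : ℕ) (hr : 1 ≤ r) (hn : 2 * d ^ 2 * n ≤ r ^ 3) :
    (placements d n r).card ≤ (4 * r ^ 2 * (n * d + 1) * (r ^ 3 + 1)) ^ (9 * r ^ 2) ∧
    (∀ q ∈ placements d n r, ∀ v k, |q v k| ≤ ((4 * r ^ 2 * r ^ 3 *
      (4 * r ^ 2 * (n * d) * r ^ 3 + 1) ^ (4 * r ^ 2 * (n * d)) : ℕ) : ℤ)) ∧
    ∀ G : SimpleGraph (Fin n),
      (∀ p : Fin n → Fin d → ℝ, ∃ q ∈ placements d n r, (rigidityMatrix G p).rank ≤ rankAt G q) ∧
      (∀ p : Fin n → Fin d → ℝ, AlgebraicIndependent ℚ (fun i : Fin n × Fin d => p i.1 i.2) →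
        (rigidityMatrix G p).rank = (placements d n r).sup (rankAt G)) ∧
      (GenericallyRigid d G ↔
        (placements d n r).sup (rankAt G) = (placements d n r).sup (rankAt ⊤)) := by
  classical
  have hgen : ∀ (G : SimpleGraph (Fin n)) (p : Fin n → Fin d → ℝ),
      AlgebraicIndependent ℚ (fun i : Fin n × Fin d => p i.1 i.2) →
        (rigidityMatrix G p).rank = (placements d n r).sup (rankAt G) := by
    intro G p hp
    apply le_antisymm
    · obtain ⟨q, hq, h⟩ := exists_placement d n r hr hn G p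
      exact h.trans (Finset.le_sup (f := rankAt G) hq)
    · apply Finset.sup_le
      intro q _
      exact rank_le_generic G p _ hp
  refine ⟨?_, ?_, ?_⟩
  · exact Finset.card_image_le.trans (points_card (n * d) r hr)
  · intro q hq v k
    obtain ⟨x, hx, rfl⟩ := Finset.mem_image.1 hq
    exact points_bound (n * d) r x hx _
  · intro G
    refine ⟨fun p => exists_placement d n r hr hn G p, hgen G, ?_⟩
    constructor
    · intro h
      obtain ⟨p, hp⟩ := exists_generic d n
      rw [← hgen G p hp, ← hgen ⊤ p hp]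
      exact h p hp
    · intro h p hp
      rw [hgen G p hp, hgen ⊤ p hp, h]

end Pool.Agent.Results.MP_37c7bf_co.SubexponentialPlacements
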